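import Mathlib

set_option autoImplicit false

open MeasureTheory Set
open scoped ENNReal

namespace Pool.Agent.Results.MP_94b3dc_an.ContinuumDensity

/-- The family `𝒞` of subsets of `X` has property (SC): there is one set selector `ψ` of `𝒞` such
that composing it with any scalarly measurable multi-function with values in `𝒞`, on any complete
probability space, gives a scalarly measurable function. -/
def PropertySC (X : Type) [NormedAddCommGroup X] [NormedSpace ℝ X] (𝒞 : Set (Set X)) : Prop :=
  ∃ ψ : Set X → X,
    (∀ C ∈ 𝒞, ψ C ∈ C) ∧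
    ∀ (Ω : Type) [MeasurableSpace Ω] (μ : Measure Ω) [IsProbabilityMeasure μ],
      μ.IsComplete →
      ∀ F : Ω → Set X,
        (∀ ω, F ω ∈ 𝒞) →
        (∀ (x' : X →L[ℝ] ℝ) (a : ℝ), MeasurableSet {ω | ∃ x ∈ F ω, a < x' x}) →
        ∀ x' : X →L[ℝ] ℝ, Measurable (fun ω => x' (ψ (F ω)))

/-- the non-empty weakly compact subsets of `X` -/
def wk (X : Type) [NormedAddCommGroup X] [NormedSpace ℝ X] : Set (Set X) :=
  {C | C.Nonempty ∧ IsCompact ((toWeakSpace ℝ X) '' C)}

/-- the non-empty subsets of `X` with at most two points -/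
def pairs (X : Type) : Set (Set X) := {C | ∃ x y : X, C = {x, y}}

/-- a well-ordered set of type `ω₁` -/
abbrev W : Type := (Cardinal.aleph 1).ord.ToType

/-- the branches of the full binary tree of height `ω₁` -/
abbrev Br : Type := W → Bool

/-- bounded real functions on the set of branches -/
abbrev E : Type := lp (fun _ : Br => ℝ) ∞

/-! ### Countability in `W` -/

lemma iio_countable (t : W) : (Iio t).Countable := by
  have h : Cardinal.mk (Iio t) < Cardinal.aleph 1 := by
    have := Cardinal.mk_Iio_lt t (by simp)
    simpa using this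
  rw [← Cardinal.le_aleph0_iff_set_countable]
  have h2 : Cardinal.aleph 1 = Order.succ Cardinal.aleph0 := Cardinal.succ_aleph0.symm
  exact Order.lt_succ_iff.1 (h.trans_eq h2)

lemma iic_countable (t : W) : (Iic t).Countable := by
  rw [← Iio_insert]
  exact (iio_countable t).insert t

lemma mk_W : Cardinal.mk W = Cardinal.aleph 1 := by simp

lemma univ_not_countable : ¬ (univ : Set W).Countable := by
  intro h
  rw [← Cardinal.le_aleph0_iff_set_countable, Cardinal.mk_univ, mk_W] at h
  exact absurd h (not_le.2 Cardinal.aleph0_lt_aleph_one)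

lemma exists_above {S : Set W} (hS : S.Countable) : ∃ t : W, ∀ s ∈ S, s < t := by
  by_contra hcon
  push Not at hcon
  apply univ_not_countable
  refine (hS.biUnion (fun s _ => iic_countable s)).mono ?_
  intro t _
  obtain ⟨s, hs, hst⟩ := hcon t
  exact mem_biUnion hs hst

/-- a monotone bounded real function on `W` is eventually constant -/
lemma eventually_const_of_monotone (v : W → ℝ) (hv : Monotone v) (c : ℝ) (hc : ∀ t, v t ≤ c) :
    ∃ t₀, ∀ t, t₀ ≤ t → v t = v t₀ := by
  have hne : (range v).Nonempty := by
    obtain ⟨t, -⟩ := exists_above (S := ∅) countable_empty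
    exact ⟨v t, t, rfl⟩
  have hbd : BddAbove (range v) := ⟨c, by rintro _ ⟨t, rfl⟩; exact hc t⟩
  have key : ∀ n : ℕ, ∃ t, sSup (range v) - 1 / ((n : ℝ) + 1) < v t := by
    intro n
    have : sSup (range v) - 1 / ((n : ℝ) + 1) < sSup (range v) := by
      have : (0 : ℝ) < 1 / ((n : ℝ) + 1) := by positivity
      linarith
    obtain ⟨_, ⟨t, rfl⟩, ht⟩ := exists_lt_of_lt_csSup hne this
    exact ⟨t, ht⟩
  choose u hu using key
  obtain ⟨t₀, ht₀⟩ := exists_above (countable_range u)
  have hsup : ∀ t, t₀ ≤ t → v t = sSup (range v) := by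
    intro t ht
    apply le_antisymm (le_csSup hbd ⟨t, rfl⟩)
    refine le_of_forall_pos_lt_add ?_
    intro ε hε
    obtain ⟨n, hn⟩ := exists_nat_one_div_lt hε
    have h1 := hu n
    have h2 : v (u n) ≤ v t := hv ((ht₀ _ ⟨n, rfl⟩).le.trans ht)
    linarith
  exact ⟨t₀, fun t ht => by rw [hsup t ht, hsup t₀ le_rfl]⟩

/-- a real function on `W` of bounded variation is eventually constant -/
lemma eventually_const_of_bv (g : W → ℝ) (hg : eVariationOn g univ ≠ ∞) :
    ∃ t₀, ∀ t, t₀ ≤ t → g t = g t₀ := by
  have hfin : ∀ s : Set W, eVariationOn g s ≠ ∞ := fun s =>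
    ne_top_of_le_ne_top hg (eVariationOn.mono g (subset_univ s))
  obtain ⟨t₀, ht₀⟩ := eventually_const_of_monotone (fun t => (eVariationOn g (Iic t)).toReal)
    (fun s t hst => ENNReal.toReal_mono (hfin _) (eVariationOn.mono g (Iic_subset_Iic.2 hst)))
    (eVariationOn g univ).toReal
    (fun t => ENNReal.toReal_mono hg (eVariationOn.mono g (subset_univ _)))
  refine ⟨t₀, fun t ht => ?_⟩
  have h1 : eVariationOn g (Iic t) = eVariationOn g (Iic t₀) :=
    (ENNReal.toReal_eq_toReal_iff' (hfin _) (hfin _)).1 (ht₀ t ht)
  have h2 : eVariationOn g (Iic t₀ ∪ Icc t₀ t) =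
      eVariationOn g (Iic t₀) + eVariationOn g (Icc t₀ t) :=
    eVariationOn.union g (x := t₀) ⟨mem_Iic.2 le_rfl, fun _ h => h⟩
      ⟨⟨le_rfl, ht⟩, fun _ h => h.1⟩
  have h3 : Iic t₀ ∪ Icc t₀ t = Iic t := by
    ext x
    simp only [mem_union, mem_Iic, mem_Icc]
    constructor
    · rintro (h | h)
      · exact h.trans ht
      · exact h.2
    · intro h
      rcases le_total x t₀ with h' | h'
      · exact Or.inl h'
      · exact Or.inr ⟨h', h⟩
  rw [h3, h1] at h2
  have h4 : eVariationOn g (Icc t₀ t) = 0 := by
    have : eVariationOn g (Iic t₀) + 0 = eVariationOn g (Iic t₀) + eVariationOn g (Icc t₀ t) := by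
      rw [add_zero]; exact h2
    exact ((ENNReal.add_right_inj (hfin _)).1 this).symm
  have h5 := eVariationOn.edist_le g (s := Icc t₀ t) (x := t) (y := t₀) ⟨ht, le_rfl⟩ ⟨le_rfl, ht⟩
  rw [h4] at h5
  exact edist_le_zero.1 h5

/-! ### The Banach space -/

/-- indicator function of a set of branches -/
noncomputable def ind (A : Set Br) : E :=
  ⟨fun b => A.indicator (fun _ => (1 : ℝ)) b, memℓp_infty ⟨1, by
    rintro _ ⟨b, rfl⟩
    by_cases h : b ∈ A <;> simp [h]⟩⟩

lemma ind_apply (A : Set Br) (b : Br) : (ind A : ∀ _ : Br, ℝ) b = A.indicator (fun _ => (1 : ℝ)) b :=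
  rfl

/-- the branches through the node given by the restriction of `s` to the initial segment up to
and including `t` -/
def cone (t : W) (s : Br) : Set Br := {b | ∀ β, β ≤ t → b β = s β}

/-- the closed linear span of the indicator functions of the cones -/
noncomputable def V : Submodule ℝ E :=
  (Submodule.span ℝ (range (fun p : W × Br => ind (cone p.1 p.2)))).topologicalClosure

/-- the node vector as an element of the space -/
noncomputable def N (t : W) (s : Br) : V :=
  ⟨ind (cone t s), Submodule.le_topologicalClosure _ (Submodule.subset_span ⟨(t, s), rfl⟩)⟩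

lemma N_apply (t : W) (s : Br) (b : Br) :
    ((N t s : E) : ∀ _ : Br, ℝ) b = (cone t s).indicator (fun _ => (1 : ℝ)) b := rfl

instance : CompleteSpace V := by
  have : IsClosed (V : Set E) := Submodule.isClosed_topologicalClosure _
  exact this.completeSpace_coe

/-- key estimate: finite families of non-negative functions with sum at most one -/
lemma sum_abs_le (x' : V →L[ℝ] ℝ) {ι : Type*} (S : Finset ι) (v : ι → V)
    (h0 : ∀ i ∈ S, ∀ b : Br, 0 ≤ ((v i : E) : ∀ _ : Br, ℝ) b)
    (h1 : ∀ b : Br, ∑ i ∈ S, ((v i : E) : ∀ _ : Br, ℝ) b ≤ 1) :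
    ∑ i ∈ S, |x' (v i)| ≤ ‖x'‖ := by
  have e1 : ∑ i ∈ S, |x' (v i)| = x' (∑ i ∈ S, (SignType.sign (x' (v i)) : ℝ) • v i) := by
    rw [map_sum]
    refine Finset.sum_congr rfl (fun i _ => ?_)
    rw [map_smul, smul_eq_mul, sign_mul_self]
  rw [e1]
  have e2 : ‖∑ i ∈ S, (SignType.sign (x' (v i)) : ℝ) • v i‖ ≤ 1 := by
    change ‖((∑ i ∈ S, (SignType.sign (x' (v i)) : ℝ) • v i : V) : E)‖ ≤ 1
    refine lp.norm_le_of_forall_le zero_le_one (fun b => ?_)
    have e3 : (((∑ i ∈ S, (SignType.sign (x' (v i)) : ℝ) • v i : V) : E) : ∀ _ : Br, ℝ) b =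
        ∑ i ∈ S, (SignType.sign (x' (v i)) : ℝ) * ((v i : E) : ∀ _ : Br, ℝ) b := by
      rw [Submodule.coe_sum, lp.coeFn_sum, Finset.sum_apply]
      rfl
    rw [e3, Real.norm_eq_abs]
    refine (Finset.abs_sum_le_sum_abs _ _).trans ?_
    refine le_trans (Finset.sum_le_sum (fun i hi => ?_)) (h1 b)
    rw [abs_mul, abs_of_nonneg (h0 i hi b)]
    refine mul_le_of_le_one_left (h0 i hi b) ?_
    rcases SignType.sign (x' (v i)) with _ | _ | _ <;> simp
  calc x' (∑ i ∈ S, (SignType.sign (x' (v i)) : ℝ) • v i)
      ≤ ‖x' (∑ i ∈ S, (SignType.sign (x' (v i)) : ℝ) • v i)‖ := Real.le_norm_self _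
    _ ≤ ‖x'‖ * ‖∑ i ∈ S, (SignType.sign (x' (v i)) : ℝ) • v i‖ := x'.le_opNorm _
    _ ≤ ‖x'‖ * 1 := by gcongr
    _ = ‖x'‖ := mul_one _

lemma cone_anti {s t : W} (hst : s ≤ t) (b : Br) : cone t b ⊆ cone s b :=
  fun _ hc β hβ => hc β (hβ.trans hst)

/-- along a branch the node vectors have bounded variation under every functional -/
lemma bv_branch (x' : V →L[ℝ] ℝ) (b : Br) :
    ∃ t₀, ∀ t, t₀ ≤ t → x' (N t b) = x' (N t₀ b) := by
  apply eventually_const_of_bv (fun t => x' (N t b))
  refine ne_top_of_le_ne_top (ENNReal.ofReal_ne_top (r := ‖x'‖)) ?_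
  refine iSup_le ?_
  rintro ⟨n, ⟨u, hu, -⟩⟩
  have e1 : ∀ i, edist (x' (N (u (i + 1)) b)) (x' (N (u i) b)) =
      ENNReal.ofReal |x' (N (u i) b - N (u (i + 1)) b)| := by
    intro i
    rw [edist_comm, edist_dist, Real.dist_eq, map_sub]
  simp only [e1]
  rw [← ENNReal.ofReal_sum_of_nonneg (fun _ _ => abs_nonneg _)]
  apply ENNReal.ofReal_le_ofReal
  have e2 : ∀ (i : ℕ) (c : Br), ((((N (u i) b - N (u (i + 1)) b : V) : E)) : ∀ _ : Br, ℝ) c =
      (cone (u i) b).indicator (fun _ => (1 : ℝ)) c -
        (cone (u (i + 1)) b).indicator (fun _ => (1 : ℝ)) c := fun _ _ => rfl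
  apply sum_abs_le x' (Finset.range n) (fun i => N (u i) b - N (u (i + 1)) b)
  · intro i _ c
    rw [e2, sub_nonneg]
    exact indicator_le_indicator_of_subset (cone_anti (hu (Nat.le_succ i)) b)
      (fun _ => zero_le_one) c
  · intro c
    simp only [e2]
    rw [Finset.sum_range_sub']
    have h1 : (cone (u 0) b).indicator (fun _ => (1 : ℝ)) c ≤ 1 :=
      indicator_le_self' (fun _ _ => zero_le_one) c
    have h2 : 0 ≤ (cone (u n) b).indicator (fun _ => (1 : ℝ)) c :=
      indicator_nonneg (fun _ _ => zero_le_one) c
    linarith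

/-- the node vectors just off a branch are null under every functional, up to countably many -/
lemma off_branch (x' : V →L[ℝ] ℝ) (b : Br) :
    {t : W | x' (N t (Function.update b t (!b t))) ≠ 0}.Countable := by
  have hs : Summable (fun t : W => |x' (N t (Function.update b t (!b t)))|) := by
    refine summable_of_sum_le (c := ‖x'‖) (fun _ => abs_nonneg _) (fun S => ?_)
    apply sum_abs_le x' S (fun t => N t (Function.update b t (!b t)))
    · intro t _ c
      rw [N_apply]
      exact indicator_nonneg (fun _ _ => zero_le_one) c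
    · intro c
      simp only [N_apply]
      by_cases h : ∃ t ∈ S, c ∈ cone t (Function.update b t (!b t))
      · obtain ⟨t, ht, hc⟩ := h
        rw [Finset.sum_eq_single_of_mem t ht]
        · exact indicator_le_self' (fun _ _ => zero_le_one) c
        · intro r _ hrt
          apply indicator_of_notMem
          intro hr
          have key : ∀ p q : W, p < q → c ∈ cone p (Function.update b p (!b p)) →
              c ∉ cone q (Function.update b q (!b q)) := by
            intro p q hpq hp hq
            have h1 := hp p le_rfl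
            have h2 := hq p hpq.le
            rw [Function.update_self] at h1
            rw [Function.update_of_ne hpq.ne] at h2
            rw [h2] at h1
            cases hb : b p <;> simp [hb] at h1
          rcases lt_trichotomy r t with h | h | h
          · exact key r t h hr hc
          · exact hrt h
          · exact key t r h hc hr
      · push Not at h
        rw [Finset.sum_eq_zero (fun t ht => indicator_of_notMem (h t ht) _)]
        exact zero_le_one
  have := hs.countable_support
  refine this.mono (fun t ht => ?_)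
  simpa [Function.mem_support] using ht

/-! ### The probability space -/

/-- countable and co-countable subsets of `W` -/
@[instance_reducible]
def cocMS : MeasurableSpace W where
  MeasurableSet' s := s.Countable ∨ sᶜ.Countable
  measurableSet_empty := Or.inl countable_empty
  measurableSet_compl s h := by
    rcases h with h | h
    · right; rwa [compl_compl]
    · left; exact h
  measurableSet_iUnion f h := by
    by_cases H : ∀ i, (f i).Countable
    · left; exact countable_iUnion H
    · push Not at H
      obtain ⟨i, hi⟩ := H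
      right
      exact ((h i).resolve_left hi).mono (compl_subset_compl.2 (subset_iUnion f i))

open Classical in
/-- the outer measure with value zero on countable sets and one on all other sets -/
noncomputable def om : OuterMeasure W where
  measureOf s := if s.Countable then 0 else 1
  empty := by simp
  mono := by
    intro s t hst
    by_cases ht : t.Countable
    · have hs : s.Countable := ht.mono hst
      simp [hs]
    · by_cases hs : s.Countable <;> simp [hs, ht]
  iUnion_nat := by
    intro s _
    by_cases H : ∀ i, (s i).Countable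
    · have : (⋃ i, s i).Countable := countable_iUnion H
      simp [this]
    · push Not at H
      obtain ⟨i, hi⟩ := H
      have h1 : (if (⋃ i, s i).Countable then (0 : ℝ≥0∞) else 1) ≤ 1 := by
        split_ifs <;> simp
      refine h1.trans ?_
      have h2 := ENNReal.le_tsum (f := fun i => if (s i).Countable then (0 : ℝ≥0∞) else 1) i
      simpa [hi] using h2

open Classical in
lemma om_countable {s : Set W} (hs : s.Countable) : om s = 0 := by
  change (if s.Countable then (0 : ℝ≥0∞) else 1) = 0
  simp [hs]

open Classical in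
lemma om_uncountable {s : Set W} (hs : ¬ s.Countable) : om s = 1 := by
  change (if s.Countable then (0 : ℝ≥0∞) else 1) = 1
  simp [hs]

lemma om_cara {s : Set W} (hs : s.Countable) (t : Set W) : om t = om (t ∩ s) + om (t \ s) := by
  rw [om_countable (hs.mono inter_subset_right), zero_add]
  by_cases ht : t.Countable
  · rw [om_countable ht, om_countable (ht.mono sdiff_subset)]
  · rw [om_uncountable ht, om_uncountable]
    intro h
    exact ht ((h.union hs).mono (by intro x hx; by_cases h' : x ∈ s <;> simp [h', hx]))

lemma le_cara : cocMS ≤ om.caratheodory := by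
  intro s hs
  have h1 : ∀ s : Set W, s.Countable → MeasurableSet[om.caratheodory] s := fun s hs =>
    (OuterMeasure.isCaratheodory_iff om).2 (fun t => om_cara hs t)
  rcases hs with hs | hs
  · exact h1 s hs
  · have := (h1 _ hs).compl
    rwa [compl_compl] at this

/-- the countable or co-countable probability measure -/
noncomputable def cocμ : @Measure W cocMS := @OuterMeasure.toMeasure W cocMS om le_cara

lemma cocμ_apply {s : Set W} (hs : MeasurableSet[cocMS] s) : cocμ s = om s :=
  @toMeasure_apply W cocMS om le_cara s hs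

lemma cocμ_prob : @IsProbabilityMeasure W cocMS cocμ := by
  refine @IsProbabilityMeasure.mk W cocMS cocμ ?_
  rw [cocμ_apply (@MeasurableSet.univ W cocMS), om_uncountable univ_not_countable]

lemma cocμ_complete : @Measure.IsComplete W cocMS cocμ := by
  refine @Measure.IsComplete.mk W cocMS cocμ ?_
  intro s hs
  obtain ⟨t, hst, ht, h0⟩ := @exists_measurable_superset_of_null W cocMS cocμ s hs
  rw [cocμ_apply ht] at h0
  have : t.Countable := by
    by_contra hcon
    rw [om_uncountable hcon] at h0
    exact one_ne_zero h0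
  exact Or.inl (this.mono hst)

/-! ### The diagonal construction -/

/-- the two immediate successors of a node -/
noncomputable def pair (t : W) (s : Br) : Set V :=
  {N t (Function.update s t false), N t (Function.update s t true)}

lemma cone_congr {t : W} {s s' : Br} (h : ∀ β, β ≤ t → s β = s' β) : cone t s = cone t s' := by
  ext b
  constructor
  · intro hb β hβ; rw [hb β hβ, h β hβ]
  · intro hb β hβ; rw [hb β hβ, h β hβ]

lemma N_congr {t : W} {s s' : Br} (h : ∀ β, β ≤ t → s β = s' β) : N t s = N t s' := by
  apply Subtype.ext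
  change ind (cone t s) = ind (cone t s')
  rw [cone_congr h]

lemma pair_congr {t : W} {s s' : Br} (h : ∀ β, β < t → s β = s' β) : pair t s = pair t s' := by
  have key : ∀ c : Bool, N t (Function.update s t c) = N t (Function.update s' t c) := by
    intro c
    apply N_congr
    intro β hβ
    rcases eq_or_lt_of_le hβ with rfl | hβ
    · rw [Function.update_self, Function.update_self]
    · rw [Function.update_of_ne hβ.ne, Function.update_of_ne hβ.ne, h β hβ]
  rw [pair, pair, key, key]

lemma pairs_subset_wk (X : Type) [NormedAddCommGroup X] [NormedSpace ℝ X] :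
    pairs X ⊆ wk X := by
  rintro _ ⟨x, y, rfl⟩
  exact ⟨⟨x, Or.inl rfl⟩, ((Set.toFinite {x, y}).image _).isCompact⟩

lemma exists_pair_iff (t : W) (b : Br) (x' : V →L[ℝ] ℝ) (a : ℝ) :
    (∃ x ∈ pair t b, a < x' x) ↔
      (a < x' (N t b) ∨ a < x' (N t (Function.update b t (!b t)))) := by
  have h1 : N t (Function.update b t (b t)) = N t b := by rw [Function.update_eq_self]
  rw [pair]
  simp only [mem_insert_iff, mem_singleton_iff, exists_eq_or_imp, exists_eq_left]
  cases hb : b t
  · rw [hb] at h1
    rw [h1]; rfl
  · rw [hb] at h1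
    rw [h1]
    exact or_comm

/-- a colouring of `W` with both colour classes uncountable -/
lemma exists_parity : ∃ p : W → Bool, ∀ c : Bool, ¬ {t | p t = c}.Countable := by
  have h : Cardinal.mk (W × Bool) = Cardinal.mk W := by
    rw [Cardinal.mk_prod, mk_W]
    simp only [Cardinal.lift_id, Cardinal.mk_fintype, Fintype.card_bool]
    exact Cardinal.mul_eq_left (Cardinal.aleph0_le_aleph 1)
      (Cardinal.natCast_lt_aleph0.le.trans (Cardinal.aleph0_le_aleph 1)) (by norm_num)
  obtain ⟨e⟩ := Cardinal.eq.1 h
  refine ⟨fun t => (e.symm t).2, fun c hc => ?_⟩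
  apply univ_not_countable
  have h2 : (univ : Set W) ⊆ (fun t => (e.symm t).1) '' {t | (e.symm t).2 = c} := by
    intro w _
    exact ⟨e (w, c), by simp, by simp⟩
  exact (hc.image _).mono h2

/-- evaluation at a branch -/
noncomputable def ev (b : Br) : V →L[ℝ] ℝ :=
  LinearMap.mkContinuous
    { toFun := fun x => ((x : E) : ∀ _ : Br, ℝ) b
      map_add' := fun _ _ => rfl
      map_smul' := fun _ _ => rfl } 1
    (fun x => by
      rw [one_mul]
      exact lp.norm_apply_le_norm ENNReal.top_ne_zero (x : E) b)

lemma ev_apply (b : Br) (x : V) : ev b x = ((x : E) : ∀ _ : Br, ℝ) b := rfl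

theorem not_SC (𝒞 : Set (Set V)) (h𝒞 : pairs V ⊆ 𝒞) : ¬ PropertySC V 𝒞 := by
  classical
  rintro ⟨ψ, hψ, hmeas⟩
  obtain ⟨p, hp⟩ := exists_parity
  -- the choice made by the selector at a node
  have hchoice : ∀ (t : W) (s : Br), ∃ c : Bool, ψ (pair t s) = N t (Function.update s t c) := by
    intro t s
    rcases hψ (pair t s) (h𝒞 ⟨_, _, rfl⟩) with h | h
    · exact ⟨false, h⟩
    · exact ⟨true, h⟩
  choose ε hε using hchoice
  -- the steered branch
  let ext : (t : W) → ((y : W) → y < t → Bool) → Br := fun t f β =>
    if h : β < t then f β h else false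
  let b : Br := WellFounded.fix (C := fun _ => Bool) (wellFounded_lt (α := W))
    (fun t f => xor (ε t (ext t f)) (p t))
  have hb : ∀ t, b t = xor (ε t (ext t (fun β _ => b β))) (p t) := fun t =>
    WellFounded.fix_eq (C := fun _ => Bool) (wellFounded_lt (α := W)) _ t
  -- the selector along the branch
  have hsel : ∀ t, ψ (pair t b) = N t (Function.update b t (ε t (ext t (fun β _ => b β)))) := by
    intro t
    have h1 : ∀ β, β < t → b β = ext t (fun β _ => b β) β := by
      intro β hβ
      simp [ext, hβ]
    rw [pair_congr h1, hε]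
    apply N_congr
    intro β hβ
    rcases eq_or_lt_of_le hβ with rfl | hβ
    · rw [Function.update_self, Function.update_self]
    · rw [Function.update_of_ne hβ.ne, Function.update_of_ne hβ.ne, h1 β hβ]
  have hval : ∀ t, ev b (ψ (pair t b)) = if p t = false then 1 else 0 := by
    intro t
    rw [hsel, ev_apply, N_apply]
    have hbt := hb t
    set c := ε t (ext t (fun β _ => b β)) with hc
    by_cases hpt : p t = false
    · rw [if_pos hpt]
      rw [hpt, Bool.xor_false] at hbt
      apply indicator_of_mem
      intro β _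
      rw [← hbt, Function.update_eq_self]
    · rw [if_neg hpt]
      rw [Bool.not_eq_false] at hpt
      rw [hpt, Bool.xor_true] at hbt
      apply indicator_of_notMem
      intro hmem
      have := hmem t le_rfl
      rw [Function.update_self, hbt] at this
      cases c <;> simp at this
  -- the multi-function is scalarly measurable
  have hF : ∀ (x' : V →L[ℝ] ℝ) (a : ℝ),
      MeasurableSet[cocMS] {t : W | ∃ x ∈ pair t b, a < x' x} := by
    intro x' a
    simp only [exists_pair_iff]
    obtain ⟨t₀, ht₀⟩ := bv_branch x' b
    have hc : ({t : W | x' (N t (Function.update b t (!b t))) ≠ 0} ∪ Iio t₀).Countable :=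
      (off_branch x' b).union (iio_countable t₀)
    have hout : ∀ t, t ∉ ({t : W | x' (N t (Function.update b t (!b t))) ≠ 0} ∪ Iio t₀) →
        (x' (N t b) = x' (N t₀ b) ∧ x' (N t (Function.update b t (!b t))) = 0) := by
      intro t ht
      simp only [mem_union, mem_ofPred_eq, mem_Iio, not_or, not_not, not_lt] at ht
      exact ⟨ht₀ t ht.2, ht.1⟩
    by_cases hv : a < x' (N t₀ b) ∨ a < 0
    · right
      refine hc.mono ?_
      intro t ht
      by_contra hcon
      obtain ⟨h1, h2⟩ := hout t hcon
      apply ht
      rw [mem_ofPred_eq, h1, h2]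
      exact hv
    · left
      refine hc.mono ?_
      intro t ht
      by_contra hcon
      obtain ⟨h1, h2⟩ := hout t hcon
      rw [mem_ofPred_eq, h1, h2] at ht
      exact hv ht
  have hm := @hmeas W cocMS cocμ cocμ_prob cocμ_complete (fun t => pair t b)
    (fun t => h𝒞 ⟨_, _, rfl⟩) hF (ev b)
  have hset : MeasurableSet[cocMS] {t : W | p t = false} := by
    have h1 : {t : W | p t = false} = (fun t => ev b (ψ (pair t b))) ⁻¹' {1} := by
      ext t
      simp only [mem_ofPred_eq, mem_preimage, mem_singleton_iff, hval]
      by_cases hpt : p t = false <;> simp [hpt]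
    rw [h1]
    exact hm (measurableSet_singleton 1)
  rcases hset with h | h
  · exact hp false h
  · apply hp true
    refine h.mono ?_
    intro t ht
    simp only [mem_compl_iff, mem_ofPred_eq, Bool.not_eq_false]
    exact ht

/-! ### Density of the space -/

lemma mk_iic_fun_le (t : W) : Cardinal.mk (Iic t → Bool) ≤ Cardinal.continuum := by
  rw [Cardinal.mk_arrow]
  simp only [Cardinal.lift_id, Cardinal.mk_fintype, Fintype.card_bool]
  have h1 : Cardinal.mk (Iic t) ≤ Cardinal.aleph0 :=
    Cardinal.le_aleph0_iff_set_countable.2 (iic_countable t)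
  calc ((2 : ℕ) : Cardinal) ^ Cardinal.mk (Iic t)
      ≤ ((2 : ℕ) : Cardinal) ^ Cardinal.aleph0 :=
        Cardinal.power_le_power_left (by norm_num) h1
    _ = Cardinal.continuum := by rw [Nat.cast_ofNat, Cardinal.two_power_aleph0]

/-- the nodes of the tree -/
abbrev Node : Type := Σ t : W, (Iic t → Bool)

lemma mk_node_le : Cardinal.mk Node ≤ Cardinal.continuum := by
  rw [Cardinal.mk_sigma]
  refine (Cardinal.sum_le_sum _ _ mk_iic_fun_le).trans ?_
  rw [Cardinal.sum_const, mk_W]
  simp only [Cardinal.lift_id]
  calc Cardinal.aleph 1 * Cardinal.continuum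
      ≤ Cardinal.continuum * Cardinal.continuum := by
        gcongr; exact Cardinal.aleph_one_le_continuum
    _ = Cardinal.continuum := Cardinal.mul_eq_self Cardinal.aleph0_le_continuum

lemma dense_set : ∃ D : Set V, Dense D ∧ Cardinal.mk D ≤ Cardinal.continuum := by
  classical
  let S : Submodule ℝ E := Submodule.span ℝ (range (fun p : W × Br => ind (cone p.1 p.2)))
  refine ⟨{x : V | (x : E) ∈ S}, ?_, ?_⟩
  · intro x
    rw [Topology.IsInducing.subtypeVal.closure_eq_preimage_closure_image]
    have h1 : Subtype.val '' {x : V | (x : E) ∈ S} = (S : Set E) := by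
      ext y
      constructor
      · rintro ⟨x, hx, rfl⟩; exact hx
      · intro hy; exact ⟨⟨y, Submodule.le_topologicalClosure _ hy⟩, hy, rfl⟩
    have h2 : (x : E) ∈ closure (S : Set E) := x.2
    rw [← h1] at h2
    exact h2
  · let v : Node → E := fun q => ind {b : Br | ∀ β : Iic q.1, b β = q.2 β}
    have hr : range (fun p : W × Br => ind (cone p.1 p.2)) ⊆ range v := by
      rintro _ ⟨⟨t, s⟩, rfl⟩
      refine ⟨⟨t, fun β => s β⟩, ?_⟩
      change ind _ = ind _
      congr 1
      ext b
      exact ⟨fun h β hβ => h ⟨β, hβ⟩, fun h β => h β β.2⟩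
    have hS : S ≤ LinearMap.range (Finsupp.linearCombination ℝ v) := by
      rw [Finsupp.range_linearCombination]
      exact Submodule.span_mono hr
    have h1 : Cardinal.mk {x : V | (x : E) ∈ S} ≤
        Cardinal.mk (LinearMap.range (Finsupp.linearCombination ℝ v)) := by
      refine Cardinal.mk_le_of_injective
        (f := fun x => (⟨((x : V) : E), hS x.2⟩ :
          LinearMap.range (Finsupp.linearCombination ℝ v))) ?_
      intro x y hxy
      have := Subtype.ext_iff.1 hxy
      exact Subtype.ext (Subtype.ext this)
    have h2 : Cardinal.mk (LinearMap.range (Finsupp.linearCombination ℝ v)) ≤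
        Cardinal.mk (Node →₀ ℝ) :=
      Cardinal.mk_le_of_surjective
        (f := (Finsupp.linearCombination ℝ v).rangeRestrict)
        (LinearMap.surjective_rangeRestrict _)
    have hne : Nonempty Node := by
      obtain ⟨t, -⟩ := exists_above (S := ∅) countable_empty
      exact ⟨⟨t, fun _ => false⟩⟩
    have h3 : Cardinal.mk (Node →₀ ℝ) ≤ Cardinal.continuum := by
      rw [Cardinal.mk_finsupp_of_infinite', Cardinal.mk_real]
      exact max_le mk_node_le le_rfl
    exact h1.trans (h2.trans h3)

lemma not_separable : ¬ TopologicalSpace.SeparableSpace V := by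
  intro hsep
  let z : Br := fun _ => false
  have hdist : ∀ s t : W, s < t → 1 ≤ dist (N s z) (N t z) := by
    intro s t hst
    let c : Br := Function.update z t true
    have h1 : c ∈ cone s z := fun β hβ => Function.update_of_ne (hβ.trans_lt hst).ne _ _
    have h2 : c ∉ cone t z := fun h => by
      have := h t le_rfl
      simp [c, z] at this
    rw [dist_eq_norm]
    change 1 ≤ ‖((N s z - N t z : V) : E)‖
    refine le_trans ?_ (lp.norm_apply_le_norm ENNReal.top_ne_zero ((N s z - N t z : V) : E) c)
    have h3 : (((N s z - N t z : V) : E) : ∀ _ : Br, ℝ) c = 1 := by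
      change (cone s z).indicator (fun _ => (1 : ℝ)) c -
        (cone t z).indicator (fun _ => (1 : ℝ)) c = 1
      rw [indicator_of_mem h1, indicator_of_notMem h2, sub_zero]
    rw [h3]; simp
  have hpw : Pairwise (Function.onFun Disjoint (fun t : W => Metric.ball (N t z) (1 / 2))) := by
    have hlt : ∀ s t : W, s < t →
        Disjoint (Metric.ball (N s z) (1 / 2)) (Metric.ball (N t z) (1 / 2)) := by
      intro s t hst
      apply Metric.ball_disjoint_ball
      linarith [hdist s t hst]
    intro s t hst
    rcases lt_or_gt_of_ne hst with h | h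
    · exact hlt s t h
    · exact (hlt t s h).symm
  have hc : Countable W := hpw.countable_of_isOpen_disjoint (fun _ => Metric.isOpen_ball)
    (fun t => ⟨N t z, Metric.mem_ball_self (by norm_num)⟩)
  exact univ_not_countable countable_univ

/-- There is a non-separable real Banach space of density character at most the continuum whose
family of non-empty weakly compact subsets, and even whose family of subsets with one or two
points, does not have property (SC). -/
theorem result : ∃ (X : Type) (_ : NormedAddCommGroup X) (_ : NormedSpace ℝ X),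
    CompleteSpace X ∧ ¬ TopologicalSpace.SeparableSpace X ∧
    (∃ D : Set X, Dense D ∧ Cardinal.mk D ≤ Cardinal.continuum) ∧
    ¬ PropertySC X (wk X) ∧ ¬ PropertySC X (pairs X) :=
  ⟨V, inferInstance, inferInstance, inferInstance, not_separable, dense_set,
    not_SC _ (pairs_subset_wk V), not_SC _ subset_rfl⟩

end Pool.Agent.Results.MP_94b3dc_an.ContinuumDensity
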