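import Mathlib
import Pool.Agent.Helper292.ForceCH
import Pool.Agent.Results.MP_94b3dc_an.ContinuumDensity

set_option autoImplicit false

open MeasureTheory Set
open scoped ENNReal

namespace Pool.Agent.Results.MP_94b3dc_an.WeakKurepa

open Pool.Agent.Results.MP_94b3dc_an.ContinuumDensity (W iio_countable iic_countable mk_W
  univ_not_countable exists_above eventually_const_of_bv cocMS cocμ cocμ_prob cocμ_complete
  exists_parity)

/-- The family `𝒞` of subsets of `X` has property (SC): there is one set selector `ψ` of `𝒞` such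
that composing it with any scalarly measurable multi-function with values in `𝒞`, on any complete
probability space, gives a scalarly measurable function. -/
def PropertySC (X : Type) [NormedAddCommGroup X] [NormedSpace ℝ X] (𝒞 : Set (Set X)) : Prop :=
  ∃ ψ : Set X → X,
    (∀ C ∈ 𝒞, ψ C ∈ C) ∧
    ∀ (Ω : Type) [MeasurableSpace Ω] (μ : Measure Ω) [IsProbabilityMeasure μ],
      μ.IsComplete →
      ∀ F : Ω → Set X,
        (∀ ω, F ω ∈ 𝒞) →
        (∀ (x' : X →L[ℝ] ℝ) (a : ℝ), MeasurableSet {ω | ∃ x ∈ F ω, a < x' x}) →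
        ∀ x' : X →L[ℝ] ℝ, Measurable (fun ω => x' (ψ (F ω)))

/-- the non-empty weakly compact subsets of `X` -/
def wk (X : Type) [NormedAddCommGroup X] [NormedSpace ℝ X] : Set (Set X) :=
  {C | C.Nonempty ∧ IsCompact ((toWeakSpace ℝ X) '' C)}

/-- the non-empty subsets of `X` with at most two points -/
def pairs (X : Type) : Set (Set X) := {C | ∃ x y : X, C = {x, y}}

/-- `X` has density character exactly `ω₁`: it is not separable, and it has a dense subset of
cardinality at most `ω₁`. -/
def DensityOmegaOne (X : Type) [TopologicalSpace X] : Prop :=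
  ¬ TopologicalSpace.SeparableSpace X ∧ ∃ D : Set X, Dense D ∧ Cardinal.mk D ≤ Cardinal.aleph 1

/-- the well-ordered set of the countable ordinals -/
abbrev Omega1 : Type := (Cardinal.aleph 1).ord.ToType

/-- `B` is a family of more than `ω₁` branches of length `ω₁` which form a tree whose levels have
size at most `ω₁`: for each countable ordinal `t` there are at most `ω₁` restrictions of members
of `B` to `[0, t]`. A family of this kind exists if and only if there is a weak Kurepa tree. -/
def IsWeakKurepa (B : Set (Omega1 → Bool)) : Prop :=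
  Cardinal.aleph 1 < Cardinal.mk B ∧
    ∀ t : Omega1, Cardinal.mk ((fun (b : Omega1 → Bool) (β : Iic t) => b β) '' B) ≤
      Cardinal.aleph 1

/-- the branches of the full binary tree of height `ω₁` -/
abbrev Br : Type := Omega1 → Bool

variable (B : Set Br)

/-- bounded real functions on the set of branches -/
abbrev E : Type := lp (fun _ : B => ℝ) ∞

/-- indicator function of a set of branches -/
noncomputable def ind (A : Set B) : E B :=
  ⟨fun b => A.indicator (fun _ => (1 : ℝ)) b, memℓp_infty ⟨1, by
    rintro _ ⟨b, rfl⟩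
    by_cases h : b ∈ A <;> simp [h]⟩⟩

lemma ind_apply (A : Set B) (b : B) :
    (ind B A : ∀ _ : B, ℝ) b = A.indicator (fun _ => (1 : ℝ)) b :=
  rfl

/-- the branches through the node given by the restriction of `s` to the initial segment up to
and including `t` -/
def cone (t : Omega1) (s : Br) : Set B := {b | ∀ β, β ≤ t → b.1 β = s β}

/-- the closed linear span of the indicator functions of the cones -/
noncomputable def V : Submodule ℝ (E B) :=
  (Submodule.span ℝ (range (fun p : Omega1 × Br => ind B (cone B p.1 p.2)))).topologicalClosure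

/-- the node vector as an element of the space -/
noncomputable def N (t : Omega1) (s : Br) : V B :=
  ⟨ind B (cone B t s), Submodule.le_topologicalClosure _ (Submodule.subset_span ⟨(t, s), rfl⟩)⟩

lemma N_apply (t : Omega1) (s : Br) (b : B) :
    ((N B t s : E B) : ∀ _ : B, ℝ) b = (cone B t s).indicator (fun _ => (1 : ℝ)) b := rfl

instance : CompleteSpace (V B) := by
  have : IsClosed (V B : Set (E B)) := Submodule.isClosed_topologicalClosure _
  exact this.completeSpace_coe

variable {B}

/-- key estimate: finite families of non-negative functions with sum at most one -/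
lemma sum_abs_le (x' : V B →L[ℝ] ℝ) {ι : Type*} (S : Finset ι) (v : ι → V B)
    (h0 : ∀ i ∈ S, ∀ b : B, 0 ≤ ((v i : E B) : ∀ _ : B, ℝ) b)
    (h1 : ∀ b : B, ∑ i ∈ S, ((v i : E B) : ∀ _ : B, ℝ) b ≤ 1) :
    ∑ i ∈ S, |x' (v i)| ≤ ‖x'‖ := by
  have e1 : ∑ i ∈ S, |x' (v i)| = x' (∑ i ∈ S, (SignType.sign (x' (v i)) : ℝ) • v i) := by
    rw [map_sum]
    refine Finset.sum_congr rfl (fun i _ => ?_)
    rw [map_smul, smul_eq_mul, sign_mul_self]
  rw [e1]
  have e2 : ‖∑ i ∈ S, (SignType.sign (x' (v i)) : ℝ) • v i‖ ≤ 1 := by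
    change ‖((∑ i ∈ S, (SignType.sign (x' (v i)) : ℝ) • v i : V B) : E B)‖ ≤ 1
    refine lp.norm_le_of_forall_le zero_le_one (fun b => ?_)
    have e3 : (((∑ i ∈ S, (SignType.sign (x' (v i)) : ℝ) • v i : V B) : E B) : ∀ _ : B, ℝ) b =
        ∑ i ∈ S, (SignType.sign (x' (v i)) : ℝ) * ((v i : E B) : ∀ _ : B, ℝ) b := by
      rw [Submodule.coe_sum, lp.coeFn_sum, Finset.sum_apply]
      rfl
    rw [e3, Real.norm_eq_abs]
    refine (Finset.abs_sum_le_sum_abs _ _).trans ?_
    refine le_trans (Finset.sum_le_sum (fun i hi => ?_)) (h1 b)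
    rw [abs_mul, abs_of_nonneg (h0 i hi b)]
    refine mul_le_of_le_one_left (h0 i hi b) ?_
    rcases SignType.sign (x' (v i)) with _ | _ | _ <;> simp
  calc x' (∑ i ∈ S, (SignType.sign (x' (v i)) : ℝ) • v i)
      ≤ ‖x' (∑ i ∈ S, (SignType.sign (x' (v i)) : ℝ) • v i)‖ := Real.le_norm_self _
    _ ≤ ‖x'‖ * ‖∑ i ∈ S, (SignType.sign (x' (v i)) : ℝ) • v i‖ := x'.le_opNorm _
    _ ≤ ‖x'‖ * 1 := by gcongr
    _ = ‖x'‖ := mul_one _

lemma cone_anti {s t : Omega1} (hst : s ≤ t) (b : Br) : cone B t b ⊆ cone B s b :=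
  fun _ hc β hβ => hc β (hβ.trans hst)

/-- along a branch the node vectors have bounded variation under every functional -/
lemma bv_branch (x' : V B →L[ℝ] ℝ) (b : Br) :
    ∃ t₀, ∀ t, t₀ ≤ t → x' (N B t b) = x' (N B t₀ b) := by
  apply eventually_const_of_bv (fun t => x' (N B t b))
  refine ne_top_of_le_ne_top (ENNReal.ofReal_ne_top (r := ‖x'‖)) ?_
  refine iSup_le ?_
  rintro ⟨n, ⟨u, hu, -⟩⟩
  have e1 : ∀ i, edist (x' (N B (u (i + 1)) b)) (x' (N B (u i) b)) =
      ENNReal.ofReal |x' (N B (u i) b - N B (u (i + 1)) b)| := by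
    intro i
    rw [edist_comm, edist_dist, Real.dist_eq, map_sub]
  simp only [e1]
  rw [← ENNReal.ofReal_sum_of_nonneg (fun _ _ => abs_nonneg _)]
  apply ENNReal.ofReal_le_ofReal
  have e2 : ∀ (i : ℕ) (c : B), ((((N B (u i) b - N B (u (i + 1)) b : V B) : E B)) :
        ∀ _ : B, ℝ) c =
      (cone B (u i) b).indicator (fun _ => (1 : ℝ)) c -
        (cone B (u (i + 1)) b).indicator (fun _ => (1 : ℝ)) c := fun _ _ => rfl
  apply sum_abs_le x' (Finset.range n) (fun i => N B (u i) b - N B (u (i + 1)) b)
  · intro i _ c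
    rw [e2, sub_nonneg]
    exact indicator_le_indicator_of_subset (cone_anti (hu (Nat.le_succ i)) b)
      (fun _ => zero_le_one) c
  · intro c
    simp only [e2]
    rw [Finset.sum_range_sub']
    have h1 : (cone B (u 0) b).indicator (fun _ => (1 : ℝ)) c ≤ 1 :=
      indicator_le_self' (fun _ _ => zero_le_one) c
    have h2 : 0 ≤ (cone B (u n) b).indicator (fun _ => (1 : ℝ)) c :=
      indicator_nonneg (fun _ _ => zero_le_one) c
    linarith

/-- the node vectors just off a branch are null under every functional, up to countably many -/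
lemma off_branch (x' : V B →L[ℝ] ℝ) (b : Br) :
    {t : Omega1 | x' (N B t (Function.update b t (!b t))) ≠ 0}.Countable := by
  have hs : Summable (fun t : Omega1 => |x' (N B t (Function.update b t (!b t)))|) := by
    refine summable_of_sum_le (c := ‖x'‖) (fun _ => abs_nonneg _) (fun S => ?_)
    apply sum_abs_le x' S (fun t => N B t (Function.update b t (!b t)))
    · intro t _ c
      rw [N_apply]
      exact indicator_nonneg (fun _ _ => zero_le_one) c
    · intro c
      simp only [N_apply]
      by_cases h : ∃ t ∈ S, c ∈ cone B t (Function.update b t (!b t))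
      · obtain ⟨t, ht, hc⟩ := h
        rw [Finset.sum_eq_single_of_mem t ht]
        · exact indicator_le_self' (fun _ _ => zero_le_one) c
        · intro r _ hrt
          apply indicator_of_notMem
          intro hr
          have key : ∀ p q : Omega1, p < q → c ∈ cone B p (Function.update b p (!b p)) →
              c ∉ cone B q (Function.update b q (!b q)) := by
            intro p q hpq hp hq
            have h1 := hp p le_rfl
            have h2 := hq p hpq.le
            rw [Function.update_self] at h1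
            rw [Function.update_of_ne hpq.ne] at h2
            rw [h2] at h1
            cases hb : b p <;> simp [hb] at h1
          rcases lt_trichotomy r t with h | h | h
          · exact key r t h hr hc
          · exact hrt h
          · exact key t r h hc hr
      · push Not at h
        rw [Finset.sum_eq_zero (fun t ht => indicator_of_notMem (h t ht) _)]
        exact zero_le_one
  have := hs.countable_support
  refine this.mono (fun t ht => ?_)
  simpa [Function.mem_support] using ht

/-- the two immediate successors of a node -/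
noncomputable def pair (B : Set Br) (t : Omega1) (s : Br) : Set (V B) :=
  {N B t (Function.update s t false), N B t (Function.update s t true)}

lemma cone_congr {t : Omega1} {s s' : Br} (h : ∀ β, β ≤ t → s β = s' β) :
    cone B t s = cone B t s' := by
  ext b
  constructor
  · intro hb β hβ; rw [hb β hβ, h β hβ]
  · intro hb β hβ; rw [hb β hβ, h β hβ]

lemma N_congr {t : Omega1} {s s' : Br} (h : ∀ β, β ≤ t → s β = s' β) : N B t s = N B t s' := by
  apply Subtype.ext
  change ind B (cone B t s) = ind B (cone B t s')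
  rw [cone_congr h]

lemma pair_congr {t : Omega1} {s s' : Br} (h : ∀ β, β < t → s β = s' β) :
    pair B t s = pair B t s' := by
  have key : ∀ c : Bool, N B t (Function.update s t c) = N B t (Function.update s' t c) := by
    intro c
    apply N_congr
    intro β hβ
    rcases eq_or_lt_of_le hβ with rfl | hβ
    · rw [Function.update_self, Function.update_self]
    · rw [Function.update_of_ne hβ.ne, Function.update_of_ne hβ.ne, h β hβ]
  rw [pair, pair, key, key]

lemma pairs_subset_wk (X : Type) [NormedAddCommGroup X] [NormedSpace ℝ X] :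
    pairs X ⊆ wk X := by
  rintro _ ⟨x, y, rfl⟩
  exact ⟨⟨x, Or.inl rfl⟩, ((Set.toFinite {x, y}).image _).isCompact⟩

lemma pair_eq (t : Omega1) (b : Br) :
    pair B t b = {N B t b, N B t (Function.update b t (!b t))} := by
  have h1 : N B t (Function.update b t (b t)) = N B t b := by rw [Function.update_eq_self]
  rw [pair]
  cases hb : b t
  · rw [hb] at h1
    rw [h1]; rfl
  · rw [hb] at h1
    rw [h1]
    exact Set.pair_comm _ _

lemma exists_pair_iff (t : Omega1) (b : Br) (x' : V B →L[ℝ] ℝ) (a : ℝ) :
    (∃ x ∈ pair B t b, a < x' x) ↔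
      (a < x' (N B t b) ∨ a < x' (N B t (Function.update b t (!b t)))) := by
  rw [pair_eq]
  simp only [mem_insert_iff, mem_singleton_iff, exists_eq_or_imp, exists_eq_left]

/-- evaluation at a branch -/
noncomputable def ev (b : B) : V B →L[ℝ] ℝ :=
  LinearMap.mkContinuous
    { toFun := fun x => ((x : E B) : ∀ _ : B, ℝ) b
      map_add' := fun _ _ => rfl
      map_smul' := fun _ _ => rfl } 1
    (fun x => by
      rw [one_mul]
      exact lp.norm_apply_le_norm ENNReal.top_ne_zero (x : E B) b)

lemma ev_apply (b : B) (x : V B) : ev b x = ((x : E B) : ∀ _ : B, ℝ) b := rfl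

lemma ev_N (b : B) (t : Omega1) : ev b (N B t b.1) = 1 := by
  rw [ev_apply, N_apply]
  have h : b ∈ cone B t b.1 := fun _ _ => rfl
  exact indicator_of_mem h _

lemma ev_N_off (b : B) (t : Omega1) : ev b (N B t (Function.update b.1 t (!b.1 t))) = 0 := by
  rw [ev_apply, N_apply]
  apply indicator_of_notMem
  intro h
  have := h t le_rfl
  rw [Function.update_self] at this
  cases hb : b.1 t <;> simp [hb] at this

/-- counting branches which are determined by a restriction to a countable ordinal -/
lemma count (hB : ∀ t : Omega1, Cardinal.mk ((fun (b : Br) (β : Iic t) => b β) '' B) ≤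
      Cardinal.aleph 1) (S : Set Br) (hS : S ⊆ B) (t₀ : Br → Omega1)
    (h : ∀ b ∈ S, ∀ b' ∈ S, t₀ b = t₀ b' → (∀ β, β ≤ t₀ b → b β = b' β) → b = b') :
    Cardinal.mk S ≤ Cardinal.aleph 1 := by
  let Q : Type := Σ t : Omega1, ((fun (b : Br) (β : Iic t) => b β) '' B : Set (Iic t → Bool))
  have hQ : Cardinal.mk Q ≤ Cardinal.aleph 1 := by
    rw [Cardinal.mk_sigma]
    refine (Cardinal.sum_le_sum _ _ hB).trans ?_
    rw [Cardinal.sum_const, mk_W]
    simp only [Cardinal.lift_id]
    rw [Cardinal.mul_eq_self (Cardinal.aleph0_le_aleph 1)]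
  refine le_trans ?_ hQ
  refine Cardinal.mk_le_of_injective
    (f := fun b : S => (⟨t₀ b.1, ⟨fun β => b.1 β, ⟨b.1, hS b.2, rfl⟩⟩⟩ : Q)) ?_
  intro b b' hbb
  apply Subtype.ext
  have h1 : t₀ b.1 = t₀ b'.1 := congrArg Sigma.fst hbb
  refine h b.1 b.2 b'.1 b'.2 h1 ?_
  intro β hβ
  have h2 := (Sigma.ext_iff.1 hbb).2
  have h3 : ∀ (s s' : Omega1) (hs : s = s')
      (f : ((fun (b : Br) (β : Iic s) => b β) '' B : Set (Iic s → Bool)))
      (g : ((fun (b : Br) (β : Iic s') => b β) '' B : Set (Iic s' → Bool))),
      HEq f g → ∀ β (hβ : β ≤ s), f.1 ⟨β, hβ⟩ = g.1 ⟨β, hs ▸ hβ⟩ := by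
    rintro s _ rfl f g hfg β hβ
    rw [eq_of_heq hfg]
  exact h3 _ _ h1 _ _ h2 β hβ

/-- the least place where two branches differ -/
lemma exists_first_diff {b b' : Br} (h : b ≠ b') : ∃ t, b t ≠ b' t ∧ ∀ β, β < t → b β = b' β := by
  obtain ⟨t, ht⟩ := Function.ne_iff.1 h
  have hne : {t | b t ≠ b' t}.Nonempty := ⟨t, ht⟩
  refine ⟨WellFounded.min (wellFounded_lt (α := Omega1)) _ hne,
    WellFounded.min_mem (wellFounded_lt (α := Omega1)) _ hne, ?_⟩
  intro β hβ
  by_contra hcon
  exact WellFounded.not_lt_min (wellFounded_lt (α := Omega1)) (s := {t | b t ≠ b' t}) hcon hβ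

theorem not_SC (hB : IsWeakKurepa B) (𝒞 : Set (Set (V B))) (h𝒞 : pairs (V B) ⊆ 𝒞) :
    ¬ PropertySC (V B) 𝒞 := by
  classical
  rintro ⟨ψ, hψ, hmeas⟩
  -- the multi-function is scalarly measurable
  have hF : ∀ b : Br, ∀ (x' : V B →L[ℝ] ℝ) (a : ℝ),
      MeasurableSet[cocMS] {t : Omega1 | ∃ x ∈ pair B t b, a < x' x} := by
    intro b x' a
    simp only [exists_pair_iff]
    obtain ⟨t₀, ht₀⟩ := bv_branch x' b
    have hc : ({t : Omega1 | x' (N B t (Function.update b t (!b t))) ≠ 0} ∪ Iio t₀).Countable :=
      (off_branch x' b).union (iio_countable t₀)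
    have hout : ∀ t, t ∉ ({t : Omega1 | x' (N B t (Function.update b t (!b t))) ≠ 0} ∪ Iio t₀) →
        (x' (N B t b) = x' (N B t₀ b) ∧ x' (N B t (Function.update b t (!b t))) = 0) := by
      intro t ht
      simp only [mem_union, mem_ofPred_eq, mem_Iio, not_or, not_not, not_lt] at ht
      exact ⟨ht₀ t ht.2, ht.1⟩
    by_cases hv : a < x' (N B t₀ b) ∨ a < 0
    · right
      refine hc.mono ?_
      intro t ht
      by_contra hcon
      obtain ⟨h1, h2⟩ := hout t hcon
      apply ht
      rw [mem_ofPred_eq, h1, h2]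
      exact hv
    · left
      refine hc.mono ?_
      intro t ht
      by_contra hcon
      obtain ⟨h1, h2⟩ := hout t hcon
      rw [mem_ofPred_eq, h1, h2] at ht
      exact hv ht
  -- the selector is eventually constant along each branch
  have hev : ∀ b : B, (∃ t₀, ∀ t, t₀ < t → ψ (pair B t b.1) = N B t b.1) ∨
      (∃ t₀, ∀ t, t₀ < t → ψ (pair B t b.1) = N B t (Function.update b.1 t (!b.1 t))) := by
    intro b
    have hm := @hmeas Omega1 cocMS cocμ cocμ_prob cocμ_complete (fun t => pair B t b.1)
      (fun t => h𝒞 ⟨_, _, rfl⟩) (hF b.1) (ev b)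
    have hset : MeasurableSet[cocMS] ((fun t => ev b (ψ (pair B t b.1))) ⁻¹' {1}) :=
      hm (measurableSet_singleton 1)
    have hcase : ∀ t, ψ (pair B t b.1) = N B t b.1 ∨
        ψ (pair B t b.1) = N B t (Function.update b.1 t (!b.1 t)) := by
      intro t
      have h1 : ψ (pair B t b.1) ∈ pair B t b.1 := hψ (pair B t b.1) (h𝒞 ⟨_, _, rfl⟩)
      have h2 : ∀ x, x ∈ pair B t b.1 →
          x = N B t b.1 ∨ x = N B t (Function.update b.1 t (!b.1 t)) := by
        intro x hx
        rw [pair_eq] at hx
        exact hx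
      exact h2 _ h1
    rcases hset with h | h
    · right
      obtain ⟨t₀, ht₀⟩ := exists_above h
      refine ⟨t₀, fun t ht => (hcase t).resolve_left (fun h1 => ?_)⟩
      have h2 : t ∈ (fun t => ev b (ψ (pair B t b.1))) ⁻¹' {1} := by
        change ev b (ψ (pair B t b.1)) = 1
        rw [h1, ev_N]
      exact absurd (ht₀ t h2) (not_lt.2 ht.le)
    · left
      obtain ⟨t₀, ht₀⟩ := exists_above h
      refine ⟨t₀, fun t ht => (hcase t).resolve_right (fun h1 => ?_)⟩
      have h2 : t ∈ ((fun t => ev b (ψ (pair B t b.1))) ⁻¹' {1})ᶜ := by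
        change ¬ ev b (ψ (pair B t b.1)) = 1
        rw [h1, ev_N_off]
        norm_num
      exact absurd (ht₀ t h2) (not_lt.2 ht.le)
  let S1 : Set Br := {b | b ∈ B ∧ ∃ t₀, ∀ t, t₀ < t → ψ (pair B t b) = N B t b}
  let S0 : Set Br := {b | b ∈ B ∧
    ∃ t₀, ∀ t, t₀ < t → ψ (pair B t b) = N B t (Function.update b t (!b t))}
  have hcov : B ⊆ S1 ∪ S0 := by
    intro b hb
    rcases hev ⟨b, hb⟩ with h | h
    · exact Or.inl ⟨hb, h⟩
    · exact Or.inr ⟨hb, h⟩
  obtain ⟨w₀, -⟩ := exists_above (S := ∅) countable_empty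
  have hS1 : Cardinal.mk S1 ≤ Cardinal.aleph 1 := by
    refine count hB.2 S1 (fun b hb => hb.1)
      (fun b => if h : ∃ t₀, ∀ t, t₀ < t → ψ (pair B t b) = N B t b then h.choose else w₀) ?_
    intro b hb b' hb' ht hbb
    have h1 : (if h : ∃ t₀, ∀ t, t₀ < t → ψ (pair B t b) = N B t b then h.choose else w₀) =
      hb.2.choose := dif_pos hb.2
    have h2 : (if h : ∃ t₀, ∀ t, t₀ < t → ψ (pair B t b') = N B t b' then h.choose else w₀) =
      hb'.2.choose := dif_pos hb'.2
    simp only [h1] at ht hbb
    rw [h2] at ht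
    have h3 := hb.2.choose_spec
    have h4 := hb'.2.choose_spec
    rw [← ht] at h4
    by_contra hne
    obtain ⟨t, htne, htlt⟩ := exists_first_diff hne
    have h5 : hb.2.choose < t := by
      by_contra hcon
      exact htne (hbb t (not_lt.1 hcon))
    have h6 : N B t b = N B t b' := by
      rw [← h3 t h5, ← h4 t h5, pair_congr htlt]
    have h7 := ev_N ⟨b, hb.1⟩ t
    rw [h6, ev_apply, N_apply] at h7
    have h8 : (⟨b, hb.1⟩ : B) ∈ cone B t b' := by
      by_contra hcon
      rw [indicator_of_notMem hcon] at h7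
      exact zero_ne_one h7
    exact htne (h8 t le_rfl)
  have hS0 : Cardinal.mk S0 ≤ Cardinal.aleph 1 := by
    refine count hB.2 S0 (fun b hb => hb.1)
      (fun b => if h : ∃ t₀, ∀ t, t₀ < t →
        ψ (pair B t b) = N B t (Function.update b t (!b t)) then h.choose else w₀) ?_
    intro b hb b' hb' ht hbb
    have h1 : (if h : ∃ t₀, ∀ t, t₀ < t →
        ψ (pair B t b) = N B t (Function.update b t (!b t)) then h.choose else w₀) =
      hb.2.choose := dif_pos hb.2
    have h2 : (if h : ∃ t₀, ∀ t, t₀ < t →
        ψ (pair B t b') = N B t (Function.update b' t (!b' t)) then h.choose else w₀) =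
      hb'.2.choose := dif_pos hb'.2
    simp only [h1] at ht hbb
    rw [h2] at ht
    have h3 := hb.2.choose_spec
    have h4 := hb'.2.choose_spec
    rw [← ht] at h4
    by_contra hne
    obtain ⟨t, htne, htlt⟩ := exists_first_diff hne
    have h5 : hb.2.choose < t := by
      by_contra hcon
      exact htne (hbb t (not_lt.1 hcon))
    have h6 : N B t (Function.update b t (!b t)) = N B t (Function.update b' t (!b' t)) := by
      rw [← h3 t h5, ← h4 t h5, pair_congr htlt]
    have h9 : N B t (Function.update b t (!b t)) = N B t b' := by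
      apply N_congr
      intro β hβ
      rcases eq_or_lt_of_le hβ with rfl | hβ
      · rw [Function.update_self]
        cases hb1 : b β <;> cases hb2 : b' β <;> simp [hb1, hb2] at htne ⊢
      · rw [Function.update_of_ne hβ.ne, htlt β hβ]
    have h7 := ev_N ⟨b', hb'.1⟩ t
    have h8 := ev_N_off ⟨b', hb'.1⟩ t
    simp only at h7 h8
    rw [← h9, h6, h8] at h7
    exact zero_ne_one h7
  have h1 : Cardinal.mk B ≤ Cardinal.aleph 1 := by
    refine (Cardinal.mk_le_mk_of_subset hcov).trans ((Cardinal.mk_union_le _ _).trans ?_)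
    exact (add_le_add hS1 hS0).trans
      (Cardinal.add_eq_self (Cardinal.aleph0_le_aleph 1)).le
  exact absurd h1 (not_le.2 hB.1)

/-! ### Density of the space -/


lemma dense_of_gens {F : Type} [NormedAddCommGroup F] [NormedSpace ℝ F] (G : Set F)
    (hG : Cardinal.mk G ≤ Cardinal.aleph 1) :
    ∃ D : Set ((Submodule.span ℝ G).topologicalClosure), Dense D ∧
      Cardinal.mk D ≤ Cardinal.aleph 1 := by
  let _ : Module ℚ F := Module.compHom F (algebraMap ℚ ℝ)
  have hsmul : ∀ (q : ℚ) (x : F), q • x = (q : ℝ) • x := fun _ _ => rfl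
  let S : Submodule ℚ F := Submodule.span ℚ G
  -- the rational span is contained in the real span
  have hSR : (S : Set F) ⊆ (Submodule.span ℝ G : Set F) := by
    intro x hx
    refine Submodule.span_induction (p := fun x _ => x ∈ Submodule.span ℝ G) ?_ ?_ ?_ ?_ hx
    · intro x hx; exact Submodule.subset_span hx
    · exact Submodule.zero_mem _
    · intro x y _ _ hx hy; exact Submodule.add_mem _ hx hy
    · intro q x _ hx
      rw [hsmul]
      exact Submodule.smul_mem _ _ hx
  -- the closure of the rational span is stable under real scalars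
  have hadd : ∀ x ∈ closure (S : Set F), ∀ y ∈ closure (S : Set F), x + y ∈ closure (S : Set F) := by
    intro x hx y hy
    exact map_mem_closure₂ continuous_add hx hy (fun a ha b hb => S.add_mem ha hb)
  have hsm : ∀ (c : ℝ), ∀ x ∈ closure (S : Set F), c • x ∈ closure (S : Set F) := by
    intro c x hx
    have hc : c ∈ closure (range ((↑) : ℚ → ℝ)) := Rat.denseRange_cast c
    refine map_mem_closure₂ continuous_smul hc hx ?_
    rintro _ ⟨q, rfl⟩ b hb
    exact S.smul_mem q hb
  have hRS : (Submodule.span ℝ G : Set F) ⊆ closure (S : Set F) := by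
    intro x hx
    refine Submodule.span_induction (p := fun x _ => x ∈ closure (S : Set F)) ?_ ?_ ?_ ?_ hx
    · intro x hx; exact subset_closure (Submodule.subset_span hx)
    · exact subset_closure S.zero_mem
    · intro x y _ _ hx hy; exact hadd x hx y hy
    · intro c x _ hx; exact hsm c x hx
  refine ⟨{x | (x : F) ∈ S}, ?_, ?_⟩
  · intro x
    rw [Topology.IsInducing.subtypeVal.closure_eq_preimage_closure_image]
    have h1 : Subtype.val '' {x : (Submodule.span ℝ G).topologicalClosure | (x : F) ∈ S} =
        (S : Set F) := by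
      ext y
      constructor
      · rintro ⟨x, hx, rfl⟩; exact hx
      · intro hy; exact ⟨⟨y, Submodule.le_topologicalClosure _ (hSR hy)⟩, hy, rfl⟩
    have h2 : (x : F) ∈ closure (Submodule.span ℝ G : Set F) := x.2
    have h3 : (x : F) ∈ closure (S : Set F) := closure_minimal hRS isClosed_closure h2
    rw [← h1] at h3
    exact h3
  · have h1 : Cardinal.mk {x : (Submodule.span ℝ G).topologicalClosure | (x : F) ∈ S} ≤
        Cardinal.mk S := by
      refine Cardinal.mk_le_of_injective
        (f := fun x => (⟨((x : (Submodule.span ℝ G).topologicalClosure) : F), x.2⟩ : S)) ?_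
      intro x y hxy
      have := Subtype.ext_iff.1 hxy
      exact Subtype.ext (Subtype.ext this)
    have h2 : Cardinal.mk S ≤ Cardinal.mk (G →₀ ℚ) := by
      have hS : S = LinearMap.range (Finsupp.linearCombination ℚ ((↑) : G → F)) := by
        rw [Finsupp.range_linearCombination, Subtype.range_coe]
      rw [hS]
      exact Cardinal.mk_le_of_surjective
        (f := (Finsupp.linearCombination ℚ ((↑) : G → F)).rangeRestrict)
        (LinearMap.surjective_rangeRestrict _)
    refine h1.trans (h2.trans ?_)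
    rcases isEmpty_or_nonempty G with hG0 | hG0
    · rw [Cardinal.mk_eq_one]
      exact (Cardinal.one_lt_aleph0.trans_le (Cardinal.aleph0_le_aleph 1)).le
    · rw [Cardinal.mk_finsupp_of_infinite']
      exact max_le hG (by simp)

lemma mk_nodes_le (hB : ∀ t : Omega1, Cardinal.mk ((fun (b : Br) (β : Iic t) => b β) '' B) ≤
      Cardinal.aleph 1) :
    Cardinal.mk (Σ t : Omega1,
      ((fun (b : Br) (β : Iic t) => b β) '' B : Set (Iic t → Bool))) ≤ Cardinal.aleph 1 := by
  rw [Cardinal.mk_sigma]
  refine (Cardinal.sum_le_sum _ _ hB).trans ?_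
  rw [Cardinal.sum_const, mk_W]
  simp only [Cardinal.lift_id]
  rw [Cardinal.mul_eq_self (Cardinal.aleph0_le_aleph 1)]

lemma mk_gens_le (hB : IsWeakKurepa B) :
    Cardinal.mk (range (fun p : Omega1 × Br => ind B (cone B p.1 p.2))) ≤ Cardinal.aleph 1 := by
  let Q : Type := Σ t : Omega1, ((fun (b : Br) (β : Iic t) => b β) '' B : Set (Iic t → Bool))
  let v : Q → E B := fun q => ind B {b : B | ∀ β : Iic q.1, b.1 β = q.2.1 β}
  have hr : range (fun p : Omega1 × Br => ind B (cone B p.1 p.2)) ⊆ insert (ind B ∅) (range v) := by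
    rintro _ ⟨⟨t, s⟩, rfl⟩
    by_cases h : ∃ b : Br, b ∈ B ∧ ∀ β, β ≤ t → b β = s β
    · obtain ⟨b, hb, hbs⟩ := h
      right
      refine ⟨⟨t, ⟨fun β => b β, ⟨b, hb, rfl⟩⟩⟩, ?_⟩
      change ind B _ = ind B _
      congr 1
      ext c
      constructor
      · intro h β hβ
        exact (h ⟨β, hβ⟩).trans (hbs β hβ)
      · intro h β
        change c.1 β = b β
        rw [hbs β β.2]
        exact h β β.2
    · left
      change ind B _ = ind B _
      congr 1
      ext c
      simp only [mem_empty_iff_false, iff_false]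
      intro hc
      exact h ⟨c.1, c.2, hc⟩
  refine (Cardinal.mk_le_mk_of_subset hr).trans (Cardinal.mk_insert_le.trans ?_)
  refine (add_le_add (Cardinal.mk_range_le.trans (mk_nodes_le hB.2))
    (Cardinal.one_lt_aleph0.trans_le (Cardinal.aleph0_le_aleph 1)).le).trans ?_
  exact (Cardinal.add_eq_self (Cardinal.aleph0_le_aleph 1)).le

lemma dense_set (hB : IsWeakKurepa B) :
    ∃ D : Set (V B), Dense D ∧ Cardinal.mk D ≤ Cardinal.aleph 1 :=
  dense_of_gens _ (mk_gens_le hB)

lemma one_le_dist {t s : Omega1} {b : Br} (hts : t ≤ s) (hne : N B t b ≠ N B s b) :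
    1 ≤ dist (N B t b) (N B s b) := by
  have h1 : ∃ c : B, c ∈ cone B t b ∧ c ∉ cone B s b := by
    by_contra hcon
    push Not at hcon
    apply hne
    apply Subtype.ext
    change ind B (cone B t b) = ind B (cone B s b)
    congr 1
    exact Subset.antisymm hcon (cone_anti hts b)
  obtain ⟨c, hc1, hc2⟩ := h1
  rw [dist_eq_norm]
  change 1 ≤ ‖((N B t b - N B s b : V B) : E B)‖
  refine le_trans ?_ (lp.norm_apply_le_norm ENNReal.top_ne_zero ((N B t b - N B s b : V B) : E B) c)
  have h3 : (((N B t b - N B s b : V B) : E B) : ∀ _ : B, ℝ) c = 1 := by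
    change (cone B t b).indicator (fun _ => (1 : ℝ)) c -
      (cone B s b).indicator (fun _ => (1 : ℝ)) c = 1
    rw [indicator_of_mem hc1, indicator_of_notMem hc2, sub_zero]
  rw [h3]; simp

lemma not_separable (hB : IsWeakKurepa B) : ¬ TopologicalSpace.SeparableSpace (V B) := by
  classical
  intro hsep
  -- along each branch the nodes are eventually constant
  have key : ∀ b : Br, ∃ t₀, ∀ t, t₀ ≤ t → N B t b = N B t₀ b := by
    intro b
    have hc : (range (fun t => N B t b)).Countable := by
      refine Set.PairwiseDisjoint.countable_of_isOpen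
        (s := fun x : V B => Metric.ball x (1 / 2)) ?_ (fun _ _ => Metric.isOpen_ball)
        (fun x _ => ⟨x, Metric.mem_ball_self (by norm_num)⟩)
      rintro _ ⟨t, rfl⟩ _ ⟨s, rfl⟩ hne
      apply Metric.ball_disjoint_ball
      rcases le_total t s with h | h
      · linarith [one_le_dist h hne]
      · have := one_le_dist h (Ne.symm hne)
        rw [dist_comm] at this
        linarith
    let g : V B → Omega1 := fun x => if h : ∃ t, N B t b = x then h.choose else
      (exists_above (S := ∅) countable_empty).choose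
    obtain ⟨t₀, ht₀⟩ := exists_above (hc.image g)
    refine ⟨t₀, fun t ht => ?_⟩
    have h1 : ∃ s, N B s b = N B t b := ⟨t, rfl⟩
    have h2 : g (N B t b) = h1.choose := dif_pos h1
    have h3 : g (N B t b) < t₀ := ht₀ _ ⟨_, ⟨t, rfl⟩, rfl⟩
    have h4 := h1.choose_spec
    rw [← h2] at h4
    -- monotonicity
    apply Subtype.ext
    change ind B (cone B t b) = ind B (cone B t₀ b)
    congr 1
    apply Subset.antisymm (cone_anti ht b)
    refine (cone_anti h3.le b).trans ?_
    intro c hc'
    have h5 : ((N B (g (N B t b)) b : E B) : ∀ _ : B, ℝ) c = ((N B t b : E B) : ∀ _ : B, ℝ) c := by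
      rw [h4]
    rw [N_apply, N_apply, indicator_of_mem hc'] at h5
    by_contra hcon
    rw [indicator_of_notMem hcon] at h5
    exact one_ne_zero h5
  choose t₀ ht₀ using key
  have h1 : Cardinal.mk B ≤ Cardinal.aleph 1 := by
    refine count hB.2 B subset_rfl t₀ ?_
    intro b hb b' hb' ht hbb
    by_contra hne
    obtain ⟨t, htne, htlt⟩ := exists_first_diff hne
    have h5 : t₀ b < t := by
      by_contra hcon
      exact htne (hbb t (not_lt.1 hcon))
    have h6 : N B t b = N B t b' := by
      rw [ht₀ b t h5.le, ht₀ b' t (ht ▸ h5.le), ← ht]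
      exact N_congr hbb
    have h7 := ev_N ⟨b, hb⟩ t
    rw [h6, ev_apply, N_apply] at h7
    have h8 : (⟨b, hb⟩ : B) ∈ cone B t b' := by
      by_contra hcon
      rw [indicator_of_notMem hcon] at h7
      exact zero_ne_one h7
    exact htne (h8 t le_rfl)
  exact absurd h1 (not_le.2 hB.1)

theorem of_weakKurepa (hB : IsWeakKurepa B) :
    ∃ (X : Type) (_ : NormedAddCommGroup X) (_ : NormedSpace ℝ X),
    CompleteSpace X ∧ DensityOmegaOne X ∧ ¬ PropertySC X (wk X) ∧ ¬ PropertySC X (pairs X) :=
  ⟨V B, inferInstance, inferInstance, inferInstance, ⟨not_separable hB, dense_set hB⟩,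
    not_SC hB _ (pairs_subset_wk (V B)), not_SC hB _ subset_rfl⟩

/-- the continuum hypothesis gives a weak Kurepa family: all branches -/
lemma isWeakKurepa_of_CH (hCH : Cardinal.aleph 1 = Cardinal.continuum.{0}) :
    IsWeakKurepa (univ : Set (Omega1 → Bool)) := by
  constructor
  · rw [Cardinal.mk_univ, Cardinal.mk_arrow]
    simp only [Cardinal.lift_id, Cardinal.mk_fintype, Fintype.card_bool, mk_W]
    exact_mod_cast Cardinal.cantor (Cardinal.aleph 1)
  · intro t
    refine (Cardinal.mk_set_le _).trans ?_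
    exact (Pool.Agent.Results.MP_94b3dc_an.ContinuumDensity.mk_iic_fun_le t).trans hCH.ge

/-- No hypothesis is assumed.
(1) There is a notion of forcing `P` all of whose conditions force that `ω₁` is preserved and that
the continuum hypothesis holds.
(2) If there is a weak Kurepa family `B`, then there is a real Banach space of density character
`ω₁` whose family of non-empty weakly compact subsets does not have property (SC); even its family
of subsets with one or two points does not have it.
(3) The continuum hypothesis gives such a family `B`, so it refutes the statement of the problem. -/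
theorem result :
    (∃ (P : Type) (_ : Preorder P), Nonempty P ∧ ∀ p : P,
      p ∈ Pool.Agent.Helper292.ForceCH.OmegaOnePreserved P ∧
      p ∈ Pool.Agent.Helper292.ForceCH.CHHolds P) ∧
    ((∃ B : Set (Omega1 → Bool), IsWeakKurepa B) →
      ∃ (X : Type) (_ : NormedAddCommGroup X) (_ : NormedSpace ℝ X),
        CompleteSpace X ∧ DensityOmegaOne X ∧
        ¬ PropertySC X (wk X) ∧ ¬ PropertySC X (pairs X)) ∧
    (Cardinal.aleph 1 = Cardinal.continuum.{0} →
      (∃ B : Set (Omega1 → Bool), IsWeakKurepa B) ∧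
      ¬ ∀ (X : Type) [NormedAddCommGroup X] [NormedSpace ℝ X] [CompleteSpace X],
        DensityOmegaOne X → PropertySC X (wk X)) := by
  refine ⟨?_, fun ⟨B, hB⟩ => of_weakKurepa hB, fun hCH => ⟨⟨_, isWeakKurepa_of_CH hCH⟩, ?_⟩⟩
  · obtain ⟨P, i, h1, h2⟩ := Pool.Agent.Helper292.ForceCH.exists_forcing
    exact ⟨P, i, h1, fun p => ⟨(h2 p).1, (h2 p).2.2⟩⟩
  · intro h
    obtain ⟨X, i1, i2, i3, h1, h2, -⟩ := of_weakKurepa (isWeakKurepa_of_CH hCH)
    exact h2 (h X h1)

end Pool.Agent.Results.MP_94b3dc_an.WeakKurepa
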